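import Pool.Agent.N728.QU.Def
import Pool.Agent.N170.QG.AVS
import Pool.Agent.N92.QL.LOC

/-!
PROJECT QU (helper728), leaf SER: the singular series of `τ (m² - h²) + c`. Written by helper123, after
`N92/QL/LOC.lean` and `N170/QG/AVS.lean`.
-/

set_option autoImplicit false

namespace Pool.Agent.N123.QU

open Finset Pool.Agent.N728.QL Pool.Agent.N728.QU
open Pool.Agent.N170.QG (crt2 avg periods incomplete tel tel_prime low ratio)
open Pool.Agent.N92.QL (loc_crt loc_periodic)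

/-! ### LOCu -/

open Classical in
/-- **LOCu** -/
theorem t_LOCu : S_LOCu := by
  intro z
  have hV : 0 < VW 0 z := by
    unfold VW
    refine prod_pos fun p hp => ?_
    have hp' : (2 : ℝ) ≤ p := by exact_mod_cast (mem_filter.1 hp).2.two_le
    have : 1 / (p : ℝ) ≤ 1 / 2 := one_div_le_one_div_of_le (by norm_num) hp'
    linarith
  have hQ : 0 < PP 0 z := by
    unfold PP
    exact prod_pos fun p hp => (mem_filter.1 hp).2.pos
  have hQ' : (0 : ℝ) < PP 0 z := by exact_mod_cast hQ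
  refine ⟨(VW 0 z)⁻¹ * PP 0 z, by positivity, fun τ c h T1 T2 hT => ?_⟩
  obtain ⟨S, hS⟩ : ∃ S, S = (Ioc 0 z).filter Nat.Prime := ⟨_, rfl⟩
  have hSp : ∀ p ∈ S, p.Prime := fun p hp => by
    rw [hS] at hp
    exact (mem_filter.1 hp).2
  obtain ⟨P, hP⟩ : ∃ P : ℕ → ℕ → Prop, P = fun p t : ℕ => ¬ (p : ℤ) ∣ V τ c h t := ⟨_, rfl⟩
  have hdv : ∀ p t : ℕ, (p : ℤ) ∣ V τ c h (t % p) ↔ (p : ℤ) ∣ V τ c h t := by
    intro p t
    have h1 : ((t % p : ℕ) : ℤ) ≡ t [ZMOD p] := by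
      push_cast
      exact Int.mod_modEq _ _
    have h2 : V τ c h (t % p) ≡ V τ c h t [ZMOD p] := by
      unfold V
      exact (Int.ModEq.mul_left τ ((h1.pow 2).sub_right _)).add_right c
    rw [← Int.modEq_zero_iff_dvd, ← Int.modEq_zero_iff_dvd]
    exact ⟨fun h => h2.symm.trans h, fun h => h2.trans h⟩
  have hR : ∀ t : ℕ, Rg 0 z (V τ c h t) ↔ ∀ p ∈ S, P p (t % p) := by
    intro t
    rw [hP, hS]
    unfold Rg
    simp only [mem_filter, mem_Ioc]
    constructor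
    · rintro h p ⟨⟨h1, h2⟩, h3⟩
      rw [hdv]
      exact h p h3 h1 h2
    · intro h p h3 h1 h2
      have := h p ⟨⟨h1, h2⟩, h3⟩
      rwa [hdv] at this
  obtain ⟨g, hg⟩ : ∃ g : ℕ → ℝ, g = fun t : ℕ => lz z (V τ c h t) := ⟨_, rfl⟩
  have hgv : ∀ t, g t = if ∀ p ∈ S, P p (t % p) then (VW 0 z)⁻¹ else 0 := by
    intro t
    rw [hg]
    show lz z _ = _
    unfold lz
    by_cases h : Rg 0 z (V τ c h t)
    · rw [if_pos h, if_pos ((hR t).1 h)]
    · rw [if_neg h, if_neg (fun h' => h ((hR t).2 h'))]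
  have hPP : PP 0 z = ∏ p ∈ S, p := by rw [hS]; rfl
  have hper : ∀ n, g (n + PP 0 z) = g n := by
    intro n
    rw [hgv, hgv]
    have : ∀ p ∈ S, (n + PP 0 z) % p = n % p := by
      intro p hp
      have hd : p ∣ PP 0 z := by
        rw [hPP]
        exact dvd_prod_of_mem (fun p => p) hp
      obtain ⟨k, hk⟩ := hd
      rw [hk, Nat.add_mul_mod_self_left]
    congr 1
    rw [eq_iff_iff]
    refine forall₂_congr fun p hp => ?_
    rw [this p hp]
  have hg0 : ∀ n, 0 ≤ g n := by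
    intro n
    rw [hgv]
    split_ifs <;> positivity
  have hg1 : ∀ n, g n ≤ (VW 0 z)⁻¹ := by
    intro n
    rw [hgv]
    split_ifs
    · exact le_rfl
    · positivity
  have hsum : (∑ i ∈ range (PP 0 z), g i) / PP 0 z = Sq τ c h z := by
    have h1 : ∑ i ∈ range (PP 0 z), g i =
        ((∏ p ∈ S, ((range p).filter (P p)).card : ℕ) : ℝ) * (VW 0 z)⁻¹ := by
      rw [← loc_crt S P hSp, ← hPP]
      simp_rw [hgv]
      rw [← sum_filter, sum_const, nsmul_eq_mul]
    rw [h1, hPP]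
    unfold Sq VW
    rw [← hS, prod_div_distrib]
    push_cast
    rw [div_eq_mul_inv, div_eq_mul_inv, mul_right_comm]
    congr 1
    rw [← div_eq_mul_inv, ← prod_div_distrib]
    refine prod_congr rfl fun p hp => ?_
    have hp0 : (0 : ℝ) < p := by exact_mod_cast (hSp p hp).pos
    have h2 : ((range p).filter (P p)).card +
        ((range p).filter (fun m : ℕ => (p : ℤ) ∣ V τ c h m)).card = p := by
      have h3 := card_filter_add_card_filter_not (s := range p)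
        (fun t : ℕ => (p : ℤ) ∣ V τ c h t)
      rw [card_range] at h3
      rw [add_comm, hP]
      convert h3 using 2
      congr!
    have h3 : (((range p).filter (P p)).card : ℝ) =
        p - ((range p).filter (fun m : ℕ => (p : ℤ) ∣ V τ c h m)).card := by
      have : ((((range p).filter (P p)).card : ℝ) +
          ((range p).filter (fun m : ℕ => (p : ℤ) ∣ V τ c h m)).card) = p := by exact_mod_cast h2
      linarith
    rw [h3]
    field_simp
  have hL := loc_periodic hQ hper hg0 hg1 (T2 - T1) (T1 + 1)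
  rw [hsum] at hL
  have h4 : ∑ t ∈ Ioc T1 T2, lz z (V τ c h t) = ∑ i ∈ range (T2 - T1), g (T1 + 1 + i) := by
    have h6 : Ioc T1 T2 = Ico (T1 + 1) (T2 + 1) := by
      ext x
      simp only [mem_Ioc, mem_Ico]
      omega
    rw [h6, Finset.sum_Ico_eq_sum_range, show T2 + 1 - (T1 + 1) = T2 - T1 by omega, hg]
  rw [h4]
  have h5 : ((T2 : ℝ) - T1) = ((T2 - T1 : ℕ) : ℝ) := by
    rw [Nat.cast_sub hT]
  rw [h5]
  exact hL

/-! ### The number of roots -/

/-- the number of roots modulo `p` -/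
def wu (τ c : ℤ) (h p : ℕ) : ℕ := ((range p).filter (fun m : ℕ => (p : ℤ) ∣ V τ c h m)).card

lemma wu_zmod (τ c : ℤ) (h p : ℕ) [NeZero p] : wu τ c h p =
    (univ.filter (fun x : ZMod p => (τ : ZMod p) * (x ^ 2 - (h : ZMod p) ^ 2) + (c : ZMod p) = 0)).card := by
  unfold wu
  refine Finset.card_bij' (fun m _ => (m : ZMod p)) (fun x _ => x.val) ?_ ?_ ?_ ?_
  · intro m hm
    rw [mem_filter] at hm
    rw [mem_filter]
    refine ⟨mem_univ _, ?_⟩
    have := (ZMod.intCast_zmod_eq_zero_iff_dvd (V τ c h m) p).2 hm.2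
    unfold V at this
    push_cast at this
    exact this
  · intro x hx
    rw [mem_filter] at hx
    rw [mem_filter, mem_range]
    refine ⟨ZMod.val_lt x, ?_⟩
    rw [← ZMod.intCast_zmod_eq_zero_iff_dvd]
    unfold V
    push_cast
    rw [ZMod.natCast_zmod_val]
    exact hx.2
  · intro m hm
    rw [mem_filter, mem_range] at hm
    exact ZMod.val_cast_of_lt hm.1
  · intro x _
    exact ZMod.natCast_zmod_val x

lemma wu_mod (τ c : ℤ) (h p : ℕ) [NeZero p] : wu τ c (h % p) p = wu τ c h p := by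
  rw [wu_zmod, wu_zmod, ZMod.natCast_mod]

lemma sum_range_zmod (p : ℕ) [NeZero p] (F : ZMod p → ℕ) :
    ∑ h ∈ range p, F (h : ZMod p) = ∑ y : ZMod p, F y := by
  refine Finset.sum_bij' (fun m _ => (m : ZMod p)) (fun x _ => x.val) ?_ ?_ ?_ ?_ ?_
  · intro m _
    exact mem_univ _
  · intro x _
    rw [mem_range]
    exact ZMod.val_lt x
  · intro m hm
    rw [mem_range] at hm
    exact ZMod.val_cast_of_lt hm
  · intro x _
    exact ZMod.natCast_zmod_val x
  · intro m _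
    rfl

lemma two_ne {p : ℕ} [hp : Fact p.Prime] (hp2 : p ≠ 2) : (2 : ZMod p) ≠ 0 := by
  intro h
  have h1 : ((2 : ℕ) : ZMod p) = 0 := by exact_mod_cast h
  rw [ZMod.natCast_eq_zero_iff] at h1
  exact hp2 ((Nat.prime_dvd_prime_iff_eq hp.out Nat.prime_two).1 h1)

lemma count_pairs {p : ℕ} [hp : Fact p.Prime] (hp2 : p ≠ 2) (τ c : ZMod p) (hτ : τ ≠ 0) :
    ∑ y : ZMod p, (univ.filter (fun x : ZMod p => τ * (x ^ 2 - y ^ 2) + c = 0)).card =
      p - 1 + if c = 0 then p else 0 := by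
  have h2 := two_ne hp2
  simp only [Finset.card_filter]
  have h1 : ∀ y : ZMod p, (∑ x : ZMod p, if τ * (x ^ 2 - y ^ 2) + c = 0 then 1 else 0) =
      ∑ a : ZMod p, if τ * (2 * a * y + a ^ 2) + c = 0 then 1 else 0 := by
    intro y
    rw [← Equiv.sum_comp (Equiv.addLeft y)]
    refine Finset.sum_congr rfl fun a _ => ?_
    have : τ * ((Equiv.addLeft y a) ^ 2 - y ^ 2) + c = τ * (2 * a * y + a ^ 2) + c := by
      rw [Equiv.coe_addLeft]
      ring
    rw [this]
  rw [Finset.sum_congr rfl fun y _ => h1 y, Finset.sum_comm,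
    ← Finset.add_sum_erase univ _ (mem_univ (0 : ZMod p)), add_comm]
  congr 1
  · rw [Finset.sum_congr rfl (g := fun _ => 1)]
    · rw [Finset.sum_const, Finset.card_erase_of_mem (mem_univ _), Finset.card_univ, ZMod.card,
        smul_eq_mul, mul_one]
    · intro a ha
      have ha0 : a ≠ 0 := (Finset.mem_erase.1 ha).1
      rw [Finset.sum_eq_single ((-c / τ - a ^ 2) / (2 * a))]
      · rw [if_pos]
        field_simp
        ring
      · intro y _ hy
        rw [if_neg]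
        intro h
        apply hy
        field_simp
        linear_combination h
      · intro h
        exact absurd (mem_univ _) h
  · have h3 : ∀ y : ZMod p, τ * (2 * 0 * y + 0 ^ 2) + c = c := fun y => by ring
    simp only [h3]
    split_ifs
    · rw [Finset.sum_const, Finset.card_univ, ZMod.card, smul_eq_mul, mul_one]
    · rw [Finset.sum_const_zero]

lemma tau_ne {p : ℕ} [hp : Fact p.Prime] {τ : ℤ} (hτ : τ = 1 ∨ τ = -1) : (τ : ZMod p) ≠ 0 := by
  rcases hτ with rfl | rfl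
  · simp
  · simp

lemma sum_wu {τ : ℤ} (hτ : τ = 1 ∨ τ = -1) (c : ℤ) {p : ℕ} (hp : p.Prime) (hp2 : p ≠ 2) :
    ∑ h ∈ range p, wu τ c h p = p - 1 + if (p : ℤ) ∣ c then p else 0 := by
  have := Fact.mk hp
  have h1 : ∑ h ∈ range p, wu τ c h p = ∑ h ∈ range p, (fun y : ZMod p =>
      (univ.filter (fun x : ZMod p => (τ : ZMod p) * (x ^ 2 - y ^ 2) + (c : ZMod p) = 0)).card)
        (h : ZMod p) := Finset.sum_congr rfl fun h _ => wu_zmod τ c h p
  rw [h1]
  refine (sum_range_zmod p (fun y : ZMod p =>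
      (univ.filter (fun x : ZMod p => (τ : ZMod p) * (x ^ 2 - y ^ 2) + (c : ZMod p) = 0)).card)).trans ?_
  rw [count_pairs hp2 _ _ (tau_ne hτ)]
  simp only [ZMod.intCast_zmod_eq_zero_iff_dvd]

lemma wu_two {τ : ℤ} (hτ : τ = 1 ∨ τ = -1) (c : ℤ) (h : ℕ) : wu τ c h 2 = 1 := by
  unfold wu
  have h1 : V τ c h 1 = V τ c h 0 + τ := by
    unfold V
    push_cast
    ring
  rw [Finset.card_eq_one]
  by_cases h0 : ((2 : ℕ) : ℤ) ∣ V τ c h 0
  · refine ⟨0, ?_⟩
    ext m
    simp only [mem_filter, mem_range, mem_singleton]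
    constructor
    · rintro ⟨hm, hd⟩
      by_contra hm0
      have hm1 : m = 1 := by omega
      subst hm1
      rw [h1] at hd
      push_cast at h0 hd
      rcases hτ with rfl | rfl <;> omega
    · rintro rfl
      exact ⟨by omega, h0⟩
  · refine ⟨1, ?_⟩
    ext m
    simp only [mem_filter, mem_range, mem_singleton]
    constructor
    · rintro ⟨hm, hd⟩
      by_contra hm0
      have hm1 : m = 0 := by omega
      subst hm1
      exact h0 hd
    · rintro rfl
      refine ⟨by omega, ?_⟩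
      rw [h1]
      push_cast at h0 ⊢
      rcases hτ with rfl | rfl <;> omega

lemma wu_le {τ : ℤ} (hτ : τ = 1 ∨ τ = -1) (c : ℤ) (h : ℕ) {p : ℕ} (hp : p.Prime) :
    wu τ c h p ≤ 2 := by
  have := Fact.mk hp
  rw [wu_zmod]
  rcases (univ.filter (fun x : ZMod p => (τ : ZMod p) * (x ^ 2 - (h : ZMod p) ^ 2) +
    (c : ZMod p) = 0)).eq_empty_or_nonempty with h0 | ⟨x0, hx0⟩
  · rw [h0]
    simp
  · have hsub : univ.filter (fun x : ZMod p => (τ : ZMod p) * (x ^ 2 - (h : ZMod p) ^ 2) +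
        (c : ZMod p) = 0) ⊆ {x0, -x0} := by
      intro x hx
      rw [mem_filter] at hx hx0
      rw [mem_insert, mem_singleton]
      have h1 : (τ : ZMod p) * (x ^ 2 - x0 ^ 2) = 0 := by
        linear_combination hx.2 - hx0.2
      have h2 : x ^ 2 = x0 ^ 2 := by
        rcases mul_eq_zero.1 h1 with h3 | h3
        · exact absurd h3 (tau_ne hτ)
        · exact sub_eq_zero.1 h3
      exact sq_eq_sq_iff_eq_or_eq_neg.1 h2
    exact (Finset.card_le_card hsub).trans Finset.card_le_two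

/-! ### The local factors -/

/-- `(1 - wu / p) / (1 - 1 / p) = 1 + xu` -/
noncomputable def xu (τ c : ℤ) (p h : ℕ) : ℝ := (1 - (wu τ c h p : ℝ)) / ((p : ℝ) - 1)

lemma fac_eq' (τ c : ℤ) {p : ℕ} (hp : p.Prime) (h : ℕ) :
    (1 - (wu τ c h p : ℝ) / p) / (1 - 1 / (p : ℝ)) = 1 + xu τ c p h := by
  have h1 : (2 : ℝ) ≤ p := by exact_mod_cast hp.two_le
  have h2 : (p : ℝ) - 1 ≠ 0 := by linarith
  have h3 : (p : ℝ) ≠ 0 := by linarith
  have h4 : (1 - 1 / (p : ℝ)) ≠ 0 := by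
    rw [sub_ne_zero]
    intro h
    rw [eq_div_iff h3] at h
    linarith
  unfold xu
  rw [div_eq_iff h4]
  field_simp
  ring

lemma xu_mod (τ c : ℤ) (p h : ℕ) : xu τ c p (h % p) = xu τ c p h := by
  unfold xu
  rcases Nat.eq_zero_or_pos p with rfl | hp
  · rw [Nat.mod_zero]
  · have : NeZero p := ⟨hp.ne'⟩
    rw [wu_mod]

lemma xu_two {τ : ℤ} (hτ : τ = 1 ∨ τ = -1) (c : ℤ) (h : ℕ) : xu τ c 2 h = 0 := by
  unfold xu
  rw [wu_two hτ]
  simp

lemma xu_abs {τ : ℤ} (hτ : τ = 1 ∨ τ = -1) (c : ℤ) {p : ℕ} (hp : p.Prime) (h : ℕ) :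
    |xu τ c p h| ≤ 1 / ((p : ℝ) - 1) := by
  have h1 : (2 : ℝ) ≤ p := by exact_mod_cast hp.two_le
  have h3 : (0 : ℝ) < (p : ℝ) - 1 := by linarith
  have h2 : (wu τ c h p : ℝ) ≤ 2 := by exact_mod_cast wu_le hτ c h hp
  have h4 : (0 : ℝ) ≤ (wu τ c h p : ℝ) := by positivity
  unfold xu
  rw [abs_div, abs_of_pos h3]
  refine div_le_div_of_nonneg_right ?_ h3.le
  rw [abs_le]
  constructor <;> linarith

lemma xu_half {τ : ℤ} (hτ : τ = 1 ∨ τ = -1) (c : ℤ) {p : ℕ} (hp : p.Prime) (h : ℕ) :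
    |xu τ c p h| ≤ 1 / 2 := by
  by_cases hp2 : p = 2
  · subst hp2
    rw [xu_two hτ, abs_zero]
    norm_num
  · have h1 : 3 ≤ p := by
      have := hp.two_le
      omega
    have h2 : (3 : ℝ) ≤ p := by exact_mod_cast h1
    refine (xu_abs hτ c hp h).trans ?_
    rw [div_le_div_iff₀ (by linarith) (by norm_num)]
    linarith

lemma sum_xu {τ : ℤ} (hτ : τ = 1 ∨ τ = -1) (c : ℤ) {p : ℕ} (hp : p.Prime) (hp2 : p ≠ 2) :
    ∑ h ∈ range p, xu τ c p h = (1 - if (p : ℤ) ∣ c then (p : ℝ) else 0) / ((p : ℝ) - 1) := by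
  unfold xu
  rw [← Finset.sum_div, Finset.sum_sub_distrib]
  congr 1
  have h := sum_wu hτ c hp hp2
  have h1 : ((∑ h ∈ range p, wu τ c h p : ℕ) : ℝ) =
      ((p - 1 + if (p : ℤ) ∣ c then p else 0 : ℕ) : ℝ) := by rw [h]
  push_cast [Nat.cast_sub hp.one_le] at h1
  rw [h1]
  simp
  ring

/-- the weights of the primes -/
noncomputable def wt (c : ℤ) (p : ℕ) : ℝ :=
  1 / ((p : ℝ) * (p - 1)) + if (p : ℤ) ∣ c then 1 / (p : ℝ) else 0

lemma wt_nonneg (c : ℤ) {p : ℕ} (hp : p.Prime) : 0 ≤ wt c p := by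
  have h1 : (2 : ℝ) ≤ p := by exact_mod_cast hp.two_le
  have h2 : (0 : ℝ) ≤ (p : ℝ) - 1 := by linarith
  unfold wt
  split_ifs <;> positivity

lemma avg_xu {τ : ℤ} (hτ : τ = 1 ∨ τ = -1) (c : ℤ) {p : ℕ} (hp : p.Prime) :
    |∑ h ∈ range p, xu τ c p h| ≤ p * wt c p := by
  have h1 : (2 : ℝ) ≤ p := by exact_mod_cast hp.two_le
  have h3 : (0 : ℝ) < (p : ℝ) - 1 := by linarith
  by_cases hp2 : p = 2
  · subst hp2
    rw [Finset.sum_eq_zero fun h _ => xu_two hτ c h, abs_zero]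
    exact mul_nonneg (by positivity) (wt_nonneg c hp)
  · rw [sum_xu hτ c hp hp2]
    unfold wt
    split_ifs with hc
    · rw [abs_div, abs_of_pos h3, abs_of_nonpos (by linarith)]
      have e : (p : ℝ) * (1 / ((p : ℝ) * (p - 1)) + 1 / (p : ℝ)) = 1 / ((p : ℝ) - 1) + 1 := by
        field_simp
      rw [e]
      have e2 : -(1 - (p : ℝ)) / ((p : ℝ) - 1) = 1 := by
        rw [div_eq_one_iff_eq h3.ne']
        ring
      rw [e2]
      have : 0 ≤ 1 / ((p : ℝ) - 1) := by positivity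
      linarith
    · rw [sub_zero, add_zero, abs_of_nonneg (by positivity)]
      apply le_of_eq
      field_simp

lemma sum_one_xu {τ : ℤ} (hτ : τ = 1 ∨ τ = -1) (c : ℤ) {p : ℕ} (hp : p.Prime) :
    ∑ h ∈ range p, (1 + xu τ c p h) ≤ p * (1 + 1 / ((p : ℝ) * (p - 1))) := by
  have h1 : (2 : ℝ) ≤ p := by exact_mod_cast hp.two_le
  have h3 : (0 : ℝ) < (p : ℝ) - 1 := by linarith
  rw [Finset.sum_add_distrib]
  simp only [sum_const, card_range, nsmul_eq_mul, mul_one]
  have h5 : (p : ℝ) * (1 + 1 / ((p : ℝ) * (p - 1))) = p + 1 / ((p : ℝ) - 1) := by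
    field_simp
  rw [h5]
  have h6 : ∑ h ∈ range p, xu τ c p h ≤ 1 / ((p : ℝ) - 1) := by
    by_cases hp2 : p = 2
    · subst hp2
      rw [Finset.sum_eq_zero fun h _ => xu_two hτ c h]
      positivity
    · rw [sum_xu hτ c hp hp2]
      refine div_le_div_of_nonneg_right ?_ h3.le
      split_ifs <;> linarith
  linarith

lemma Sq_eq (τ c : ℤ) (z h : ℕ) :
    Sq τ c h z = ∏ p ∈ (Ioc 0 z).filter Nat.Prime, (1 + xu τ c p h) := by
  unfold Sq
  refine Finset.prod_congr rfl fun p hp => ?_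
  exact fac_eq' τ c (Finset.mem_filter.1 hp).2 h

lemma one_xu_nonneg {τ : ℤ} (hτ : τ = 1 ∨ τ = -1) (c : ℤ) {p : ℕ} (hp : p.Prime) (h : ℕ) :
    0 ≤ 1 + xu τ c p h := by
  have := abs_le.1 (xu_half hτ c hp h)
  linarith

lemma Sq_nonneg {τ : ℤ} (hτ : τ = 1 ∨ τ = -1) (c : ℤ) (z h : ℕ) : 0 ≤ Sq τ c h z := by
  rw [Sq_eq]
  exact Finset.prod_nonneg fun p hp => one_xu_nonneg hτ c (Finset.mem_filter.1 hp).2 h

/-! ### AVSu -/

theorem avsu (z : ℕ) : ∃ H0 : ℕ, ∀ H : ℕ, H0 ≤ H → ∀ c τ : ℤ, (τ = 1 ∨ τ = -1) →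
    ∑ h ∈ Icc 1 H, Sq τ c h z ≤ 3 * Real.exp 1 * H := by
  set s := (Ioc 0 z).filter Nat.Prime with hs
  set Q := ∏ p ∈ s, p with hQ
  have hsp : ∀ p ∈ s, p.Prime := fun p hp => (Finset.mem_filter.1 hp).2
  have hQ1 : 1 ≤ Q := Finset.prod_pos fun p hp => (hsp p hp).pos
  refine ⟨Q, fun B hB c τ hτ => ?_⟩
  have hS : ∑ b ∈ range Q, Sq τ c b z ≤ Q * Real.exp 1 := by
    have h1 : ∑ b ∈ range Q, Sq τ c b z = ∏ p ∈ s, ∑ b ∈ range p, (1 + xu τ c p b) := by
      rw [← avg (fun p b => 1 + xu τ c p b) (fun p b => by rw [xu_mod]) s hsp]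
      exact Finset.sum_congr rfl fun b _ => Sq_eq τ c z b
    rw [h1]
    calc ∏ p ∈ s, ∑ b ∈ range p, (1 + xu τ c p b)
        ≤ ∏ p ∈ s, ((p : ℝ) * (1 + 1 / ((p : ℝ) * (p - 1)))) :=
          Finset.prod_le_prod (fun p hp => Finset.sum_nonneg fun b _ =>
            one_xu_nonneg hτ c (hsp p hp) b) fun p hp => sum_one_xu hτ c (hsp p hp)
      _ = Q * ∏ p ∈ s, (1 + 1 / ((p : ℝ) * (p - 1))) := by
          rw [Finset.prod_mul_distrib, hQ]
          push_cast
          rfl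
      _ ≤ Q * Real.exp 1 := by
          refine mul_le_mul_of_nonneg_left ?_ (by positivity)
          calc ∏ p ∈ s, (1 + 1 / ((p : ℝ) * (p - 1)))
              ≤ ∏ p ∈ s, Real.exp (1 / ((p : ℝ) * (p - 1))) := by
                refine Finset.prod_le_prod (fun p hp => ?_) fun p hp => ?_
                · have : (2 : ℝ) ≤ p := by exact_mod_cast (hsp p hp).two_le
                  have h2 : (0 : ℝ) ≤ (p : ℝ) - 1 := by linarith
                  positivity
                · rw [add_comm]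
                  exact Real.add_one_le_exp _
            _ = Real.exp (∑ p ∈ s, 1 / ((p : ℝ) * (p - 1))) := (Real.exp_sum _ _).symm
            _ ≤ Real.exp 1 := by
                refine Real.exp_le_exp.2 ?_
                have h3 := tel_prime 1 le_rfl z
                have h4 : s = (Ioc 1 z).filter Nat.Prime := by
                  ext p
                  simp only [hs, mem_filter, mem_Ioc]
                  constructor
                  · rintro ⟨⟨_, h2⟩, h3⟩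
                    exact ⟨⟨h3.one_lt, h2⟩, h3⟩
                  · rintro ⟨⟨h1, h2⟩, h3⟩
                    exact ⟨⟨by omega, h2⟩, h3⟩
                rw [h4]
                simpa using h3
  have hB1 : 1 ≤ B := hQ1.trans hB
  have hper : ∀ b : ℕ, Sq τ c (b % Q) z = Sq τ c b z := by
    intro b
    rw [Sq_eq, Sq_eq]
    refine Finset.prod_congr rfl fun p hp => ?_
    rw [← xu_mod τ c p (b % Q), Nat.mod_mod_of_dvd _ (Finset.dvd_prod_of_mem _ hp), xu_mod]
  set k := (B + 1) / Q + 1 with hk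
  have hle : B + 1 ≤ k * Q := by
    have := Nat.lt_div_mul_add (a := B + 1) (b := Q) (by omega)
    rw [hk, Nat.succ_mul]
    omega
  have hkQ : (k * Q : ℝ) ≤ 3 * B := by
    have h1 : (B + 1) / Q * Q ≤ B + 1 := Nat.div_mul_le_self _ _
    have h2 : k * Q ≤ 3 * B := by
      rw [hk, Nat.succ_mul]
      omega
    exact_mod_cast h2
  calc ∑ b ∈ Icc 1 B, Sq τ c b z ≤ ∑ b ∈ range (k * Q), Sq τ c b z := by
        refine Finset.sum_le_sum_of_subset_of_nonneg ?_ fun b _ _ => Sq_nonneg hτ c z b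
        intro b hb
        rw [mem_Icc] at hb
        rw [mem_range]
        omega
    _ = k * ∑ b ∈ range Q, Sq τ c b z := periods (fun b => Sq τ c b z) Q hper k
    _ ≤ k * (Q * Real.exp 1) := mul_le_mul_of_nonneg_left hS (by positivity)
    _ = (k * Q) * Real.exp 1 := by ring
    _ ≤ (3 * B) * Real.exp 1 := mul_le_mul_of_nonneg_right hkQ (Real.exp_pos _).le
    _ = 3 * Real.exp 1 * B := by ring

/-- **AVSu** -/
theorem t_AVSu : S_AVSu := by
  refine ⟨3 * Real.exp 1, by positivity, fun z => ?_⟩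
  obtain ⟨H0, hH0⟩ := avsu z
  exact ⟨H0, fun H hH c τ _ hτ => hH0 H hH c τ hτ⟩

/-! ### Second moments -/

/-- the off-diagonal terms -/
lemma pairG (x : ℕ → ℕ → ℝ) (hmod : ∀ p b, x p (b % p) = x p b) {p q : ℕ} (hp : p.Prime)
    (hq : q.Prime) (hpq : p ≠ q) (wp wq : ℝ) (hwp : 0 ≤ wp)
    (hxp : ∀ b, |x p b| ≤ 1 / ((p : ℝ) - 1)) (hxq : ∀ b, |x q b| ≤ 1 / ((q : ℝ) - 1))
    (hap : |∑ b ∈ range p, x p b| ≤ p * wp) (haq : |∑ b ∈ range q, x q b| ≤ q * wq) (B : ℕ) :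
    |∑ b ∈ Icc 1 B, x p b * x q b| ≤ ((B : ℝ) + 1) * (wp * wq) + 5 := by
  have h1 : (2 : ℝ) ≤ p := by exact_mod_cast hp.two_le
  have h1q : (2 : ℝ) ≤ q := by exact_mod_cast hq.two_le
  have h3 : (0 : ℝ) < (p : ℝ) - 1 := by linarith
  have h3q : (0 : ℝ) < (q : ℝ) - 1 := by linarith
  set f : ℕ → ℝ := fun b => x p b * x q b with hf
  have hM : ∀ b, |f b| ≤ 1 / ((p : ℝ) - 1) * (1 / ((q : ℝ) - 1)) := fun b => by
    rw [hf]
    simp only [abs_mul]
    exact mul_le_mul (hxp b) (hxq b) (abs_nonneg _) (by positivity)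
  have hper : ∀ b, f (b % (p * q)) = f b := fun b => by
    simp only [hf]
    rw [← hmod p (b % (p * q)), ← hmod q (b % (p * q)),
      Nat.mod_mod_of_dvd _ (dvd_mul_right p q), Nat.mod_mod_of_dvd _ (dvd_mul_left q p),
      hmod, hmod]
  have hinc := incomplete f (p * q) (Nat.mul_pos hp.pos hq.pos) hper _ hM (B + 1)
  have hsum : |∑ b ∈ range (p * q), f b| ≤ p * wp * (q * wq) := by
    rw [hf]
    rw [crt2 hp.one_le hq.one_le ((Nat.coprime_primes hp hq).2 hpq) (x p) (x q)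
      (hmod p) (hmod q), abs_mul]
    exact mul_le_mul hap haq (abs_nonneg _) (by positivity)
  have hsplit : ∑ b ∈ range (B + 1), f b = f 0 + ∑ b ∈ Icc 1 B, f b := by
    have : range (B + 1) = insert 0 (Icc 1 B) := by
      ext b; simp only [mem_range, mem_insert, mem_Icc]; omega
    rw [this, Finset.sum_insert (by simp)]
  have h4 : |∑ b ∈ Icc 1 B, f b| ≤ |∑ b ∈ range (B + 1), f b| + |f 0| := by
    rw [hsplit]
    have := abs_sub (f 0 + ∑ b ∈ Icc 1 B, f b) (f 0)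
    rwa [add_sub_cancel_left] at this
  have h6 := hM 0
  have hp2 : (p : ℝ) / ((p : ℝ) - 1) ≤ 2 := by
    rw [div_le_iff₀ h3]; linarith
  have hq2 : (q : ℝ) / ((q : ℝ) - 1) ≤ 2 := by
    rw [div_le_iff₀ h3q]; linarith
  have hp1 : 1 / ((p : ℝ) - 1) ≤ 1 := by
    rw [div_le_iff₀ h3]; linarith
  have hq1 : 1 / ((q : ℝ) - 1) ≤ 1 := by
    rw [div_le_iff₀ h3q]; linarith
  have h7 : ((p * q : ℕ) : ℝ) * (1 / ((p : ℝ) - 1) * (1 / ((q : ℝ) - 1))) ≤ 4 := by
    have e : ((p * q : ℕ) : ℝ) * (1 / ((p : ℝ) - 1) * (1 / ((q : ℝ) - 1))) =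
        ((p : ℝ) / ((p : ℝ) - 1) * ((q : ℝ) / ((q : ℝ) - 1))) := by
      push_cast; field_simp
    rw [e]
    calc (p : ℝ) / ((p : ℝ) - 1) * ((q : ℝ) / ((q : ℝ) - 1)) ≤ 2 * 2 :=
          mul_le_mul hp2 hq2 (by positivity) (by norm_num)
      _ = 4 := by norm_num
  have h8 : 1 / ((p : ℝ) - 1) * (1 / ((q : ℝ) - 1)) ≤ 1 := by
    calc 1 / ((p : ℝ) - 1) * (1 / ((q : ℝ) - 1)) ≤ 1 * 1 :=
          mul_le_mul hp1 hq1 (by positivity) (by norm_num)
      _ = 1 := by norm_num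
  have h9 : ((B + 1 : ℕ) : ℝ) / ((p * q : ℕ) : ℝ) * |∑ b ∈ range (p * q), f b| ≤
      ((B : ℝ) + 1) * (wp * wq) := by
    calc ((B + 1 : ℕ) : ℝ) / ((p * q : ℕ) : ℝ) * |∑ b ∈ range (p * q), f b|
        ≤ ((B + 1 : ℕ) : ℝ) / ((p * q : ℕ) : ℝ) * (p * wp * (q * wq)) :=
          mul_le_mul_of_nonneg_left hsum (by positivity)
      _ = ((B : ℝ) + 1) * (wp * wq) := by
          push_cast
          field_simp
  linarith

/-- the second moment -/
lemma secondG (x : ℕ → ℕ → ℝ) (w : ℕ → ℝ) (hmod : ∀ p b, x p (b % p) = x p b) (P : Finset ℕ)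
    (hPp : ∀ p ∈ P, p.Prime) (hw0 : ∀ p ∈ P, 0 ≤ w p)
    (hx : ∀ p ∈ P, ∀ b, |x p b| ≤ 1 / ((p : ℝ) - 1))
    (ha : ∀ p ∈ P, |∑ b ∈ range p, x p b| ≤ p * w p) (B : ℕ) :
    ∑ b ∈ Icc 1 B, (∑ p ∈ P, x p b) ^ 2 ≤
      ((B : ℝ) + 1) * (∑ p ∈ P, w p) ^ 2 + 5 * (P.card : ℝ) ^ 2 +
        2 * B * ∑ p ∈ P, 1 / ((p : ℝ) * (p - 1)) := by
  have hexp : ∑ b ∈ Icc 1 B, (∑ p ∈ P, x p b) ^ 2 =
      ∑ p ∈ P, ∑ q ∈ P, ∑ b ∈ Icc 1 B, x p b * x q b := by
    calc ∑ b ∈ Icc 1 B, (∑ p ∈ P, x p b) ^ 2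
        = ∑ b ∈ Icc 1 B, ∑ p ∈ P, ∑ q ∈ P, x p b * x q b := by
          refine Finset.sum_congr rfl fun b _ => ?_
          rw [sq, Finset.sum_mul_sum]
      _ = ∑ p ∈ P, ∑ b ∈ Icc 1 B, ∑ q ∈ P, x p b * x q b := Finset.sum_comm
      _ = _ := by
          refine Finset.sum_congr rfl fun p _ => ?_
          rw [Finset.sum_comm]
  rw [hexp]
  have hterm : ∀ p ∈ P, ∀ q ∈ P, ∑ b ∈ Icc 1 B, x p b * x q b ≤
      ((B : ℝ) + 1) * (w p * w q) + 5 + if p = q then 2 * B * (1 / ((p : ℝ) * (p - 1))) else 0 := by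
    intro p hp q hq
    by_cases hpq : p = q
    · subst hpq
      rw [if_pos rfl]
      have h1 : (2 : ℝ) ≤ p := by exact_mod_cast (hPp p hp).two_le
      have h3 : (0 : ℝ) < (p : ℝ) - 1 := by linarith
      have h4 : ∑ b ∈ Icc 1 B, x p b * x p b ≤ B * (1 / ((p : ℝ) - 1)) ^ 2 := by
        calc ∑ b ∈ Icc 1 B, x p b * x p b
            ≤ ∑ b ∈ Icc 1 B, (1 / ((p : ℝ) - 1)) ^ 2 := by
              refine Finset.sum_le_sum fun b _ => ?_
              rw [← abs_mul_abs_self, ← sq]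
              exact pow_le_pow_left₀ (abs_nonneg _) (hx p hp b) 2
          _ = _ := by simp
      have h5 : (B : ℝ) * (1 / ((p : ℝ) - 1)) ^ 2 ≤ 2 * B * (1 / ((p : ℝ) * (p - 1))) := by
        have e : (B : ℝ) * (1 / ((p : ℝ) - 1)) ^ 2 = B * (1 / ((p : ℝ) - 1) ^ 2) := by
          field_simp
        have e2 : 2 * (B : ℝ) * (1 / ((p : ℝ) * (p - 1))) = B * (2 * (1 / ((p : ℝ) * (p - 1)))) := by
          ring
        rw [e, e2]
        refine mul_le_mul_of_nonneg_left ?_ (by positivity)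
        rw [mul_one_div, div_le_div_iff₀ (by positivity) (by positivity)]
        nlinarith
      have h6 : 0 ≤ ((B : ℝ) + 1) * (w p * w p) := by
        have := hw0 p hp
        positivity
      linarith
    · rw [if_neg hpq, add_zero]
      exact (le_abs_self _).trans (pairG x hmod (hPp p hp) (hPp q hq) hpq _ _ (hw0 p hp)
        (hx p hp) (hx q hq) (ha p hp) (ha q hq) B)
  calc ∑ p ∈ P, ∑ q ∈ P, ∑ b ∈ Icc 1 B, x p b * x q b
      ≤ ∑ p ∈ P, ∑ q ∈ P, (((B : ℝ) + 1) * (w p * w q) + 5 +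
          if p = q then 2 * B * (1 / ((p : ℝ) * (p - 1))) else 0) :=
        Finset.sum_le_sum fun p hp => Finset.sum_le_sum fun q hq => hterm p hp q hq
    _ = _ := by
        simp only [Finset.sum_add_distrib, Finset.sum_const, nsmul_eq_mul, Finset.sum_ite_eq]
        congr 1
        · congr 1
          · rw [sq, Finset.sum_mul_sum, Finset.mul_sum]
            refine Finset.sum_congr rfl fun p _ => ?_
            rw [Finset.mul_sum]
          · ring
        · rw [Finset.mul_sum]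
          refine Finset.sum_congr rfl fun p hp => ?_
          rw [if_pos hp]

/-- the contribution of the prime divisors of `c` -/
lemma sum_div (c : ℤ) (hc : c ≠ 0) (z : ℕ) (P : Finset ℕ) (hPp : ∀ p ∈ P, p.Prime)
    (hPz : ∀ p ∈ P, z < p) :
    ∑ p ∈ P, (if (p : ℤ) ∣ c then 1 / (p : ℝ) else 0) ≤
      ∑ p ∈ c.natAbs.primeFactors.filter (fun p => z < p), 1 / (p : ℝ) := by
  rw [← Finset.sum_filter]
  refine Finset.sum_le_sum_of_subset_of_nonneg ?_ fun p _ _ => by positivity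
  intro p hp
  rw [mem_filter] at hp
  rw [mem_filter, Nat.mem_primeFactors]
  exact ⟨⟨hPp p hp.1, Int.natCast_dvd.1 hp.2, Int.natAbs_ne_zero.2 hc⟩, hPz p hp.1⟩

lemma Sq_split (τ c : ℤ) {z Z : ℕ} (h : z ≤ Z) (b : ℕ) :
    Sq τ c b Z = Sq τ c b z * ∏ p ∈ (Ioc z Z).filter Nat.Prime, (1 + xu τ c p b) := by
  rw [Sq_eq, Sq_eq, ← Finset.prod_union]
  · refine Finset.prod_congr ?_ fun _ _ => rfl
    rw [← Finset.filter_union, Finset.Ioc_union_Ioc_eq_Ioc (by omega) h]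
  · refine Finset.disjoint_filter_filter ?_
    rw [Finset.disjoint_left]
    intro a ha hb
    rw [mem_Ioc] at ha hb
    omega

/-! ### TLSu -/

/-- **TLSu** -/
theorem t_TLSu (s0 : ℕ) : S_TLSu s0 := by
  classical
  intro ε hε
  set C : ℝ := 3 * Real.exp 1 with hC
  have hC0 : 0 < C := by positivity
  set K0 : ℝ := 2 * C / ε with hK0
  have hK0p : 0 < K0 := by positivity
  set δ : ℝ := min (1 / 4) (ε / (4 * K0)) with hδ
  have hδ0 : 0 < δ := lt_min (by norm_num) (by positivity)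
  have hδ1 : δ ≤ 1 / 4 := min_le_left _ _
  have hδ2 : 4 * K0 * δ ≤ ε := by
    have : δ ≤ ε / (4 * K0) := min_le_right _ _
    rw [le_div_iff₀ (by positivity)] at this
    linarith
  refine ⟨s0 + 2 + ⌈4 / δ⌉₊ + ⌈40 / (ε * δ ^ 2)⌉₊, fun z hz A => ?_⟩
  have hz2 : 2 ≤ z := by omega
  have hzs : s0 ≤ z := by omega
  have hzr : (2 : ℝ) ≤ z := by exact_mod_cast hz2
  have hzE2 : 4 / δ ≤ z := by
    refine (Nat.le_ceil _).trans ?_
    exact_mod_cast (by omega : ⌈4 / δ⌉₊ ≤ z)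
  have hzE3 : 40 / (ε * δ ^ 2) ≤ z := by
    refine (Nat.le_ceil _).trans ?_
    exact_mod_cast (by omega : ⌈40 / (ε * δ ^ 2)⌉₊ ≤ z)
  obtain ⟨B1, hB1⟩ := avsu z
  -- powers of the logarithm
  have hlog : ∃ B2 : ℕ, ∀ B : ℕ, B2 ≤ B → Real.log B ^ (2 * A) ≤ ε * δ ^ 2 / 20 * B := by
    have h1 := (Real.isLittleO_pow_log_id_atTop (n := 2 * A)).bound
      (show 0 < ε * δ ^ 2 / 20 by positivity)
    have h2 := (tendsto_natCast_atTop_atTop (R := ℝ)).eventually h1
    obtain ⟨B2, hB2⟩ := Filter.eventually_atTop.1 h2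
    refine ⟨B2, fun B hB => ?_⟩
    have := hB2 B hB
    simp only [id, Real.norm_eq_abs, Nat.abs_cast] at this
    exact (le_abs_self _).trans this
  obtain ⟨B2, hB2⟩ := hlog
  refine ⟨B1 + B2 + 1, fun B hB Z c τ hc hτ hzZ hZ => ?_⟩
  have hBr : (1 : ℝ) ≤ B := by exact_mod_cast (by omega : 1 ≤ B)
  set P := (Ioc z Z).filter Nat.Prime with hP
  have hPp : ∀ p ∈ P, p.Prime := fun p hp => (Finset.mem_filter.1 hp).2
  have hPz : ∀ p ∈ P, z < p := fun p hp => (mem_Ioc.1 (Finset.mem_filter.1 hp).1).1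
  have hPr : ∀ p ∈ P, (z : ℝ) ≤ (p : ℝ) - 1 := fun p hp => by
    have h1 : z + 1 ≤ p := hPz p hp
    have h2 : ((z : ℝ) + 1) ≤ p := by exact_mod_cast h1
    linarith
  -- the pointwise estimate
  have hpt : ∀ b : ℕ, Sq τ c b z ≤ K0 → |∑ p ∈ P, xu τ c p b| ≤ δ →
      |Sq τ c b Z - Sq τ c b z| ≤ ε := by
    intro b hb1 hb2
    have hx : ∀ p ∈ P, |xu τ c p b| ≤ 1 / 2 := fun p hp => xu_half hτ c (hPp p hp) b
    have hsq : ∑ p ∈ P, xu τ c p b ^ 2 ≤ 2 / z := by
      calc ∑ p ∈ P, xu τ c p b ^ 2 ≤ ∑ p ∈ P, 2 * (1 / ((p : ℝ) * (p - 1))) := by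
            refine Finset.sum_le_sum fun p hp => ?_
            have h1 := hPr p hp
            have h3 : (0 : ℝ) < (p : ℝ) - 1 := by linarith
            have hp0 : (0 : ℝ) < p := by linarith
            calc xu τ c p b ^ 2 = |xu τ c p b| ^ 2 := (sq_abs _).symm
              _ ≤ (1 / ((p : ℝ) - 1)) ^ 2 := pow_le_pow_left₀ (abs_nonneg _)
                  (xu_abs hτ c (hPp p hp) b) 2
              _ = 1 / ((p : ℝ) - 1) ^ 2 := by field_simp
              _ ≤ 2 * (1 / ((p : ℝ) * (p - 1))) := by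
                  rw [mul_one_div, div_le_div_iff₀ (by positivity) (by positivity)]
                  nlinarith
        _ = 2 * ∑ p ∈ P, 1 / ((p : ℝ) * (p - 1)) := by rw [Finset.mul_sum]
        _ ≤ 2 * (1 / z) :=
            mul_le_mul_of_nonneg_left (tel_prime z (by omega) Z) (by positivity)
        _ = _ := by ring
    have hzδ : 4 / (z : ℝ) ≤ δ := by
      rw [div_le_iff₀ hδ0] at hzE2
      rw [div_le_iff₀ (by linarith)]
      linarith
    have h4 : 2 * (2 / (z : ℝ)) = 4 / z := by ring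
    have hR := ratio P (fun p => xu τ c p b) hx (2 * δ) (by linarith) (by linarith)
    rw [Sq_split τ c hzZ b]
    have h5 : Sq τ c b z * ∏ p ∈ P, (1 + xu τ c p b) - Sq τ c b z =
        Sq τ c b z * (∏ p ∈ P, (1 + xu τ c p b) - 1) := by ring
    rw [h5, abs_mul, abs_of_nonneg (Sq_nonneg hτ c z b)]
    calc Sq τ c b z * |∏ p ∈ P, (1 + xu τ c p b) - 1| ≤ K0 * (2 * (2 * δ)) :=
          mul_le_mul hb1 hR (abs_nonneg _) hK0p.le
      _ = 4 * K0 * δ := by ring
      _ ≤ ε := hδ2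
  -- the exceptional sets
  have hsub : (Icc 1 B).filter (fun b : ℕ => ε < |Sq τ c b Z - Sq τ c b z|) ⊆
      (Icc 1 B).filter (fun b : ℕ => K0 < Sq τ c b z) ∪
      (Icc 1 B).filter (fun b : ℕ => δ < |∑ p ∈ P, xu τ c p b|) := by
    intro b hb
    rw [mem_filter] at hb
    rw [mem_union, mem_filter, mem_filter]
    by_contra hcon
    push Not at hcon
    have h1 := hcon.1 hb.1
    have h2 := hcon.2 hb.1
    exact absurd (hpt b h1 h2) (not_le.2 hb.2)
  have hA : (((Icc 1 B).filter (fun b : ℕ => K0 < Sq τ c b z)).card : ℝ) ≤ ε / 2 * B := by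
    have h1 : (((Icc 1 B).filter (fun b : ℕ => K0 < Sq τ c b z)).card : ℝ) * K0 ≤ C * B := by
      calc (((Icc 1 B).filter (fun b : ℕ => K0 < Sq τ c b z)).card : ℝ) * K0
          = ∑ b ∈ (Icc 1 B).filter (fun b : ℕ => K0 < Sq τ c b z), K0 := by
            rw [Finset.sum_const, nsmul_eq_mul]
        _ ≤ ∑ b ∈ (Icc 1 B).filter (fun b : ℕ => K0 < Sq τ c b z), Sq τ c b z :=
            Finset.sum_le_sum fun b hb => (Finset.mem_filter.1 hb).2.le
        _ ≤ ∑ b ∈ Icc 1 B, Sq τ c b z :=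
            Finset.sum_le_sum_of_subset_of_nonneg (Finset.filter_subset _ _)
              fun b _ _ => Sq_nonneg hτ c z b
        _ ≤ C * B := hB1 B (by omega) c τ hτ
    have h2 : C = K0 * (ε / 2) := by rw [hK0]; field_simp
    rw [h2] at h1
    have h3 : (((Icc 1 B).filter (fun b : ℕ => K0 < Sq τ c b z)).card : ℝ) * K0 ≤
        (ε / 2 * B) * K0 := by linarith
    exact le_of_mul_le_mul_right h3 hK0p
  have hz0 : (0 : ℝ) < z := by linarith
  have hW : ∑ p ∈ P, wt c p ≤ 1 / z + 1 / √(z : ℝ) := by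
    unfold wt
    rw [Finset.sum_add_distrib]
    exact add_le_add (tel_prime z (by omega) Z) ((sum_div c hc.1 z P hPp hPz).trans (hc.2 z hzs))
  have hW0 : 0 ≤ ∑ p ∈ P, wt c p := Finset.sum_nonneg fun p hp => wt_nonneg c (hPp p hp)
  have hW2 : (∑ p ∈ P, wt c p) ^ 2 ≤ 4 / z := by
    have h1 : 1 / (z : ℝ) ≤ 1 / √(z : ℝ) := by
      apply one_div_le_one_div_of_le (Real.sqrt_pos.2 hz0)
      rw [Real.sqrt_le_left hz0.le]
      nlinarith
    have h2 : ∑ p ∈ P, wt c p ≤ 2 / √(z : ℝ) := by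
      have : 2 / √(z : ℝ) = 1 / √(z : ℝ) + 1 / √(z : ℝ) := by ring
      linarith
    calc (∑ p ∈ P, wt c p) ^ 2 ≤ (2 / √(z : ℝ)) ^ 2 := pow_le_pow_left₀ hW0 h2 2
      _ = 4 / z := by
          rw [div_pow, Real.sq_sqrt hz0.le]
          norm_num
  have hBb : (((Icc 1 B).filter (fun b : ℕ => δ < |∑ p ∈ P, xu τ c p b|)).card : ℝ) ≤
      ε / 2 * B := by
    have hcard : (P.card : ℝ) ≤ Z := by
      have : P.card ≤ Z := (Finset.card_filter_le _ _).trans (by simp)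
      exact_mod_cast this
    have h1 : (((Icc 1 B).filter (fun b : ℕ => δ < |∑ p ∈ P, xu τ c p b|)).card : ℝ) * δ ^ 2 ≤
        ((B : ℝ) + 1) * (4 / z) + 5 * Z ^ 2 + 2 * B * (1 / z) := by
      calc (((Icc 1 B).filter (fun b : ℕ => δ < |∑ p ∈ P, xu τ c p b|)).card : ℝ) * δ ^ 2
          = ∑ b ∈ (Icc 1 B).filter (fun b : ℕ => δ < |∑ p ∈ P, xu τ c p b|), δ ^ 2 := by
            rw [Finset.sum_const, nsmul_eq_mul]
        _ ≤ ∑ b ∈ (Icc 1 B).filter (fun b : ℕ => δ < |∑ p ∈ P, xu τ c p b|),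
              (∑ p ∈ P, xu τ c p b) ^ 2 := by
            refine Finset.sum_le_sum fun b hb => ?_
            rw [← sq_abs (∑ p ∈ P, xu τ c p b)]
            exact pow_le_pow_left₀ hδ0.le (Finset.mem_filter.1 hb).2.le 2
        _ ≤ ∑ b ∈ Icc 1 B, (∑ p ∈ P, xu τ c p b) ^ 2 :=
            Finset.sum_le_sum_of_subset_of_nonneg (Finset.filter_subset _ _)
              fun b _ _ => sq_nonneg _
        _ ≤ ((B : ℝ) + 1) * (∑ p ∈ P, wt c p) ^ 2 + 5 * (P.card : ℝ) ^ 2 +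
              2 * B * ∑ p ∈ P, 1 / ((p : ℝ) * (p - 1)) :=
            secondG (fun p b => xu τ c p b) (wt c) (fun p b => xu_mod τ c p b) P hPp
              (fun p hp => wt_nonneg c (hPp p hp)) (fun p hp b => xu_abs hτ c (hPp p hp) b)
              (fun p hp => avg_xu hτ c (hPp p hp)) B
        _ ≤ _ := by
            refine add_le_add (add_le_add ?_ ?_) ?_
            · exact mul_le_mul_of_nonneg_left hW2 (by positivity)
            · refine mul_le_mul_of_nonneg_left ?_ (by positivity)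
              exact pow_le_pow_left₀ (by positivity) hcard 2
            · exact mul_le_mul_of_nonneg_left (tel_prime z (by omega) Z) (by positivity)
    have h2 : ((B : ℝ) + 1) * (4 / z) + 2 * B * (1 / z) ≤ ε / 4 * B * δ ^ 2 := by
      have e : ((B : ℝ) + 1) * (4 / z) + 2 * B * (1 / z) = (6 * B + 4) / z := by
        field_simp
        ring
      rw [e, div_le_iff₀ hz0]
      have h3 : 40 ≤ z * (ε * δ ^ 2) := by
        rwa [div_le_iff₀ (by positivity)] at hzE3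
      have h6 : 40 * B ≤ z * (ε * δ ^ 2) * B :=
        mul_le_mul_of_nonneg_right h3 (by positivity)
      nlinarith
    have h7 : 5 * (Z : ℝ) ^ 2 ≤ ε / 4 * B * δ ^ 2 := by
      have h8 : (Z : ℝ) ^ 2 ≤ Real.log B ^ (2 * A) := by
        rw [mul_comm 2 A, pow_mul]
        exact pow_le_pow_left₀ (by positivity) hZ 2
      have h9 := hB2 B (by omega)
      have h10 : (Z : ℝ) ^ 2 ≤ ε * δ ^ 2 / 20 * B := h8.trans h9
      calc 5 * (Z : ℝ) ^ 2 ≤ 5 * (ε * δ ^ 2 / 20 * B) :=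
            mul_le_mul_of_nonneg_left h10 (by positivity)
        _ = ε / 4 * B * δ ^ 2 := by ring
    have h11 : (((Icc 1 B).filter (fun b : ℕ => δ < |∑ p ∈ P, xu τ c p b|)).card : ℝ) * δ ^ 2 ≤
        (ε / 2 * B) * δ ^ 2 := by linarith
    exact le_of_mul_le_mul_right h11 (by positivity)
  calc (((Icc 1 B).filter (fun b : ℕ => ε < |Sq τ c b Z - Sq τ c b z|)).card : ℝ)
      ≤ (((Icc 1 B).filter (fun b : ℕ => K0 < Sq τ c b z) ∪
          (Icc 1 B).filter (fun b : ℕ => δ < |∑ p ∈ P, xu τ c p b|)).card : ℝ) := by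
        exact_mod_cast Finset.card_le_card hsub
    _ ≤ (((Icc 1 B).filter (fun b : ℕ => K0 < Sq τ c b z)).card : ℝ) +
          (((Icc 1 B).filter (fun b : ℕ => δ < |∑ p ∈ P, xu τ c p b|)).card : ℝ) := by
        exact_mod_cast Finset.card_union_le _ _
    _ ≤ ε * B := by linarith

/-! ### LWBu -/

/-- **LWBu** -/
theorem t_LWBu (s0 : ℕ) : S_LWBu s0 := by
  classical
  intro ε hε
  set C : ℝ := 2 * ((s0 : ℝ) + 3) ^ 2 + 3 with hC
  have hC0 : 0 < C := by positivity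
  set l : ℝ := C / ε + 1 with hl
  have hl1 : 1 ≤ l := by
    have : 0 ≤ C / ε := by positivity
    linarith
  refine ⟨Real.exp (-l - 4), Real.exp_pos _, fun z => ⟨5 * z ^ 2 + 1, fun H hH c τ hc hτ => ?_⟩⟩
  have hHr : (1 : ℝ) ≤ H := by exact_mod_cast (by omega : 1 ≤ H)
  have hHz : 5 * (z : ℝ) ^ 2 ≤ H := by exact_mod_cast (by omega : 5 * z ^ 2 ≤ H)
  set P := (Ioc 0 z).filter Nat.Prime with hP
  have hPp : ∀ p ∈ P, p.Prime := fun p hp => (Finset.mem_filter.1 hp).2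
  have hPeq : P = (Ioc 1 z).filter Nat.Prime := by
    ext p
    simp only [hP, mem_filter, mem_Ioc]
    constructor
    · rintro ⟨⟨_, h2⟩, h3⟩
      exact ⟨⟨h3.one_lt, h2⟩, h3⟩
    · rintro ⟨⟨h1, h2⟩, h3⟩
      exact ⟨⟨by omega, h2⟩, h3⟩
  have htel : ∑ p ∈ P, 1 / ((p : ℝ) * (p - 1)) ≤ 1 := by
    have h3 := tel_prime 1 le_rfl z
    rw [hPeq]
    simpa using h3
  -- the lower bound
  have hlow : ∀ b : ℕ, Real.exp (∑ p ∈ P, xu τ c p b - 4) ≤ Sq τ c b z := by
    intro b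
    have hsq : ∑ p ∈ P, xu τ c p b ^ 2 ≤ 2 := by
      calc ∑ p ∈ P, xu τ c p b ^ 2 ≤ ∑ p ∈ P, 2 * (1 / ((p : ℝ) * (p - 1))) := by
            refine Finset.sum_le_sum fun p hp => ?_
            have h1 : (2 : ℝ) ≤ p := by exact_mod_cast (hPp p hp).two_le
            have h3 : (0 : ℝ) < (p : ℝ) - 1 := by linarith
            calc xu τ c p b ^ 2 = |xu τ c p b| ^ 2 := (sq_abs _).symm
              _ ≤ (1 / ((p : ℝ) - 1)) ^ 2 := pow_le_pow_left₀ (abs_nonneg _)
                  (xu_abs hτ c (hPp p hp) b) 2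
              _ = 1 / ((p : ℝ) - 1) ^ 2 := by field_simp
              _ ≤ 2 * (1 / ((p : ℝ) * (p - 1))) := by
                  rw [mul_one_div, div_le_div_iff₀ (by positivity) (by positivity)]
                  nlinarith
        _ = 2 * ∑ p ∈ P, 1 / ((p : ℝ) * (p - 1)) := by rw [Finset.mul_sum]
        _ ≤ 2 * 1 := mul_le_mul_of_nonneg_left htel (by positivity)
        _ = 2 := by norm_num
    calc Real.exp (∑ p ∈ P, xu τ c p b - 4) ≤
        Real.exp (∑ p ∈ P, (xu τ c p b - 2 * xu τ c p b ^ 2)) := by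
          refine Real.exp_le_exp.2 ?_
          rw [Finset.sum_sub_distrib, ← Finset.mul_sum]
          linarith
      _ = ∏ p ∈ P, Real.exp (xu τ c p b - 2 * xu τ c p b ^ 2) := Real.exp_sum _ _
      _ ≤ ∏ p ∈ P, (1 + xu τ c p b) :=
          Finset.prod_le_prod (fun p _ => (Real.exp_pos _).le)
            fun p hp => low _ (xu_half hτ c (hPp p hp) b)
      _ = Sq τ c b z := (Sq_eq τ c z b).symm
  have hsub : (Icc 1 H).filter (fun h : ℕ => Sq τ c h z < Real.exp (-l - 4)) ⊆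
      (Icc 1 H).filter (fun h : ℕ => l < |∑ p ∈ P, xu τ c p h|) := by
    intro b hb
    rw [mem_filter] at hb ⊢
    refine ⟨hb.1, ?_⟩
    have h1 := (hlow b).trans_lt hb.2
    rw [Real.exp_lt_exp] at h1
    rw [lt_abs]
    right
    linarith
  -- the sum of the weights
  have hW0 : 0 ≤ ∑ p ∈ P, wt c p := Finset.sum_nonneg fun p hp => wt_nonneg c (hPp p hp)
  have hW : ∑ p ∈ P, wt c p ≤ (s0 : ℝ) + 3 := by
    unfold wt
    rw [Finset.sum_add_distrib]
    have h1 : ∑ p ∈ P, (if (p : ℤ) ∣ c then 1 / (p : ℝ) else 0) ≤ (s0 : ℝ) + 1 + 1 := by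
      have h2 : ∑ p ∈ P, (if (p : ℤ) ∣ c then 1 / (p : ℝ) else 0) =
          ∑ p ∈ P.filter (fun p => p ≤ s0 + 1), (if (p : ℤ) ∣ c then 1 / (p : ℝ) else 0) +
          ∑ p ∈ P.filter (fun p => ¬ p ≤ s0 + 1), (if (p : ℤ) ∣ c then 1 / (p : ℝ) else 0) :=
        (Finset.sum_filter_add_sum_filter_not _ _ _).symm
      rw [h2]
      refine add_le_add ?_ ?_
      · calc ∑ p ∈ P.filter (fun p => p ≤ s0 + 1), (if (p : ℤ) ∣ c then 1 / (p : ℝ) else 0)
            ≤ ∑ _p ∈ P.filter (fun p => p ≤ s0 + 1), (1 : ℝ) := by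
              refine Finset.sum_le_sum fun p hp => ?_
              have h3 : (1 : ℝ) ≤ p := by
                exact_mod_cast (hPp p (Finset.mem_filter.1 hp).1).one_le
              split_ifs
              · rw [div_le_one (by linarith)]
                exact h3
              · norm_num
          _ = ((P.filter (fun p => p ≤ s0 + 1)).card : ℝ) := by
              rw [Finset.sum_const, nsmul_eq_mul, mul_one]
          _ ≤ (s0 : ℝ) + 1 := by
              have h3 : P.filter (fun p => p ≤ s0 + 1) ⊆ Ioc 0 (s0 + 1) := by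
                intro p hp
                rw [mem_filter] at hp
                rw [mem_Ioc]
                exact ⟨(hPp p hp.1).pos, hp.2⟩
              have h4 := Finset.card_le_card h3
              rw [Nat.card_Ioc, Nat.sub_zero] at h4
              exact_mod_cast h4
      · have h3 := sum_div c hc.1 (s0 + 1) (P.filter (fun p => ¬ p ≤ s0 + 1))
          (fun p hp => hPp p (Finset.mem_filter.1 hp).1)
          (fun p hp => not_le.1 (Finset.mem_filter.1 hp).2)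
        refine h3.trans ((hc.2 (s0 + 1) (by omega)).trans ?_)
        have h4 : (1 : ℝ) ≤ √((s0 + 1 : ℕ) : ℝ) := by
          rw [Real.one_le_sqrt]
          push_cast
          linarith [(Nat.cast_nonneg s0 : (0 : ℝ) ≤ s0)]
        rw [div_le_one (by linarith)]
        exact h4
    linarith
  have hcard : (P.card : ℝ) ≤ z := by
    have : P.card ≤ z := (Finset.card_filter_le _ _).trans (by simp)
    exact_mod_cast this
  have hm : (((Icc 1 H).filter (fun h : ℕ => l < |∑ p ∈ P, xu τ c p h|)).card : ℝ) * l ^ 2 ≤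
      C * H := by
    calc (((Icc 1 H).filter (fun b : ℕ => l < |∑ p ∈ P, xu τ c p b|)).card : ℝ) * l ^ 2
        = ∑ b ∈ (Icc 1 H).filter (fun b : ℕ => l < |∑ p ∈ P, xu τ c p b|), l ^ 2 := by
          rw [Finset.sum_const, nsmul_eq_mul]
      _ ≤ ∑ b ∈ (Icc 1 H).filter (fun b : ℕ => l < |∑ p ∈ P, xu τ c p b|),
            (∑ p ∈ P, xu τ c p b) ^ 2 := by
          refine Finset.sum_le_sum fun b hb => ?_
          rw [← sq_abs (∑ p ∈ P, xu τ c p b)]
          exact pow_le_pow_left₀ (by linarith) (Finset.mem_filter.1 hb).2.le 2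
      _ ≤ ∑ b ∈ Icc 1 H, (∑ p ∈ P, xu τ c p b) ^ 2 :=
          Finset.sum_le_sum_of_subset_of_nonneg (Finset.filter_subset _ _)
            fun b _ _ => sq_nonneg _
      _ ≤ ((H : ℝ) + 1) * (∑ p ∈ P, wt c p) ^ 2 + 5 * (P.card : ℝ) ^ 2 +
            2 * H * ∑ p ∈ P, 1 / ((p : ℝ) * (p - 1)) :=
          secondG (fun p b => xu τ c p b) (wt c) (fun p b => xu_mod τ c p b) P hPp
            (fun p hp => wt_nonneg c (hPp p hp)) (fun p hp b => xu_abs hτ c (hPp p hp) b)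
            (fun p hp => avg_xu hτ c (hPp p hp)) H
      _ ≤ (2 * H) * ((s0 : ℝ) + 3) ^ 2 + H + 2 * H * 1 := by
          refine add_le_add (add_le_add ?_ ?_) ?_
          · exact mul_le_mul (by linarith) (pow_le_pow_left₀ hW0 hW 2) (sq_nonneg _)
              (by positivity)
          · calc 5 * (P.card : ℝ) ^ 2 ≤ 5 * (z : ℝ) ^ 2 :=
                mul_le_mul_of_nonneg_left (pow_le_pow_left₀ (by positivity) hcard 2)
                  (by positivity)
              _ ≤ H := hHz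
          · exact mul_le_mul_of_nonneg_left htel (by positivity)
      _ = C * H := by rw [hC]; ring
  have h1 : (((Icc 1 H).filter (fun h : ℕ => Sq τ c h z < Real.exp (-l - 4))).card : ℝ) ≤
      (((Icc 1 H).filter (fun h : ℕ => l < |∑ p ∈ P, xu τ c p h|)).card : ℝ) := by
    exact_mod_cast Finset.card_le_card hsub
  refine h1.trans ?_
  have hl2 : C / ε ≤ l ^ 2 := by nlinarith
  have h2 : C ≤ ε * l ^ 2 := by
    rw [div_le_iff₀ hε] at hl2
    linarith
  have h3 : (((Icc 1 H).filter (fun h : ℕ => l < |∑ p ∈ P, xu τ c p h|)).card : ℝ) * l ^ 2 ≤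
      (ε * H) * l ^ 2 := by
    calc _ ≤ C * H := hm
      _ ≤ (ε * l ^ 2) * H := mul_le_mul_of_nonneg_right h2 (by positivity)
      _ = _ := by ring
  exact le_of_mul_le_mul_right h3 (by positivity)

end Pool.Agent.N123.QU
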